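import Pool.Agent.H36.Rig3

open Pool.Agent.H38.NP Pool.Agent.H36.Rig

theorem Pool.Agent.Results.MP_e057e5_lc.Hard.result : NPHardOn Valid SmallCut :=
  cut_nph.npHardOn
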